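import Pool.Agent.H798.BV.Stm5

set_option autoImplicit false

/-! (C2b) from (PT), (LB): the case `K/√m ≤ |s'|`, `Y` near the positive axis. -/

namespace Pool.Agent.H788.BV

open Pool.Agent.H798.BV Filter Topology

theorem c2b_fil {m : ℕ} (L : ℝ) (l : Fin m → ℂ) {ω : ℂ} (hω : ‖ω‖ = 1) :
    Finset.univ.filter (fun k => ¬ L < ‖ω * l k‖) = Finset.univ.filter (fun k => ¬ L < ‖l k‖) := by
  simp only [norm_mul, hω, one_mul]

theorem c2b_bB {m : ℕ} (L : ℝ) (l : Fin m → ℂ) {ω : ℂ} (hω : ‖ω‖ = 1) :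
    bB L (fun k => ω * l k) = bB L l := by
  unfold bB
  simp only [norm_mul, hω, one_mul]

theorem c2b_sR {m : ℕ} (L : ℝ) (l : Fin m → ℂ) {ω : ℂ} (hω : ‖ω‖ = 1) :
    sR L (fun k => ω * l k) = ω * sR L l := by
  unfold sR
  simp only [norm_mul, hω, one_mul]
  rw [← Finset.mul_sum, mul_div_assoc]

theorem c2b_yR {m : ℕ} (L : ℝ) (l : Fin m → ℂ) {ω : ℂ} (hω : ‖ω‖ = 1) :
    yR L (fun k => ω * l k) = ω ^ 2 * yR L l := by
  unfold yR
  simp only [norm_mul, hω, one_mul, mul_pow]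
  rw [← Finset.mul_sum, mul_div_assoc]

theorem c2b_sR_le {m : ℕ} (hm : 1 ≤ m) (L : ℝ) (l : Fin m → ℂ) (hl : ∑ k, ‖l k‖ ≤ m) :
    ‖sR L l‖ ≤ 1 := by
  have hm0 : (0 : ℝ) < m := by exact_mod_cast hm
  unfold sR
  rw [norm_div, Complex.norm_natCast, div_le_one hm0]
  refine (norm_sum_le _ _).trans (le_trans ?_ hl)
  exact Finset.sum_le_sum_of_subset_of_nonneg (Finset.filter_subset _ _)
    fun _ _ _ => norm_nonneg _

/-- the choice of the direction -/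
theorem c2b_rot (s Y : ℂ) (hs : 0 ≤ s.re) (hY : 1 / 5 ≤ Y.re) (hY' : |Y.im| ≤ 1 / 60) :
    ∃ ω : ℂ, ‖ω‖ = 1 ∧ ‖s‖ / 2 ≤ (ω * s).re ∧ s.re ≤ (ω * s).re ∧ 1 / 12 ≤ (ω ^ 2 * Y).re := by
  by_cases h : ‖s‖ / 2 ≤ s.re
  · refine ⟨1, norm_one, ?_, ?_, ?_⟩
    · rw [one_mul]; exact h
    · rw [one_mul]
    · rw [one_pow, one_mul]; linarith
  · rw [not_le] at h
    obtain ⟨σ, hσ, hσs⟩ : ∃ σ : ℝ, σ ^ 2 = 1 ∧ σ * s.im = |s.im| := by
      rcases le_total 0 s.im with h0 | h0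
      · exact ⟨1, by norm_num, by rw [one_mul, abs_of_nonneg h0]⟩
      · exact ⟨-1, by norm_num, by rw [neg_one_mul, abs_of_nonpos h0]⟩
    have h3 : √3 ^ 2 = (3 : ℝ) := Real.sq_sqrt (by norm_num)
    have h30 : (0 : ℝ) ≤ √3 := Real.sqrt_nonneg 3
    have h31 : (1 : ℝ) ≤ √3 := by nlinarith
    have h32 : √3 ≤ (2 : ℝ) := by nlinarith
    have hnS : ‖s‖ ^ 2 = s.re ^ 2 + s.im ^ 2 := by
      rw [Complex.sq_norm, Complex.normSq_apply]
      ring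
    have hS0 : 0 ≤ ‖s‖ := norm_nonneg s
    have hy : ‖s‖ - s.re / 2 ≤ |s.im| := by
      refine abs_le_of_sq_le_sq' ?_ (abs_nonneg _) |>.2
      rw [sq_abs]
      nlinarith
    have hre : ((⟨√3 / 2, -(σ / 2)⟩ : ℂ) * s).re = √3 / 2 * s.re + |s.im| / 2 := by
      rw [Complex.mul_re, ← hσs]
      ring
    have hm1 : ‖s‖ / 2 ≤ ((⟨√3 / 2, -(σ / 2)⟩ : ℂ) * s).re := by
      rw [hre]
      nlinarith
    refine ⟨⟨√3 / 2, -(σ / 2)⟩, ?_, hm1, by linarith, ?_⟩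
    · have h4 : ‖(⟨√3 / 2, -(σ / 2)⟩ : ℂ)‖ ^ 2 = 1 := by
        rw [Complex.sq_norm, Complex.normSq_apply]
        show √3 / 2 * (√3 / 2) + -(σ / 2) * -(σ / 2) = 1
        nlinarith
      have h5 := norm_nonneg (⟨√3 / 2, -(σ / 2)⟩ : ℂ)
      nlinarith
    · have h6 : ((⟨√3 / 2, -(σ / 2)⟩ : ℂ) ^ 2 * Y).re = Y.re / 2 + √3 / 2 * (σ * Y.im) := by
        rw [sq, Complex.mul_re, Complex.mul_re, Complex.mul_im]
        show (√3 / 2 * (√3 / 2) - -(σ / 2) * -(σ / 2)) * Y.re -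
          (√3 / 2 * -(σ / 2) + -(σ / 2) * (√3 / 2)) * Y.im = _
        have h7 : √3 / 2 * (√3 / 2) = 3 / 4 := by nlinarith
        have h8 : -(σ / 2) * -(σ / 2) = 1 / 4 := by nlinarith
        rw [h7, h8]
        ring
      rw [h6]
      have h9 : |σ * Y.im| ≤ 1 / 60 := by
        rw [abs_mul]
        have h10 : |σ| = 1 := by
          rw [← sq_eq_sq₀ (abs_nonneg _) zero_le_one, sq_abs, hσ, one_pow]
        rw [h10, one_mul]
        exact hY'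
      have h11 := (abs_le.1 h9).1
      nlinarith

theorem t_C2b (h1 : S_PT) (h2 : S_LB) : S_C2b := by
  intro r κ hr hr1 hκ hκ1
  have h1r : 0 < 1 - r := by linarith
  have h1κ : 0 < 1 - κ := by linarith
  obtain ⟨L, hL⟩ : ∃ L : ℝ, L = 2 / (1 - r) := ⟨_, rfl⟩
  have hL2 : 2 ≤ L := by
    rw [hL, le_div_iff₀ h1r]
    linarith
  have hL0 : 0 < L := by linarith
  have hrL : 1 - r = 2 / L := by
    rw [hL]
    field_simp
  obtain ⟨K, hKdef⟩ : ∃ K : ℝ, K = √(512 * L / (1 - κ) ^ 4) := ⟨_, rfl⟩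
  have hK0 : 0 < K := by
    rw [hKdef]
    exact Real.sqrt_pos.2 (by positivity)
  have hK2 : K ^ 2 = 512 * L / (1 - κ) ^ 4 := by
    rw [hKdef]
    exact Real.sq_sqrt (by positivity)
  obtain ⟨ρ, hρ⟩ : ∃ ρ : ℝ, ρ = 1 / (24 * L ^ 2) := ⟨_, rfl⟩
  have hρ0 : 0 < ρ := by
    rw [hρ]
    positivity
  have hρL : ρ * L ≤ 1 / 4 := by
    have e : ρ * L = 1 / (24 * L) := by
      rw [hρ]
      field_simp
    rw [e]
    exact one_div_le_one_div_of_le (by norm_num) (by linarith)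
  have hρr : ρ ≤ (1 - r) / 8 := by
    have h8 : (1 - r) / 8 = 1 / 4 / L := by
      rw [hrL]
      field_simp
      norm_num
    rw [h8, le_div_iff₀ hL0]
    exact hρL
  have hρ1 : ρ ≤ 1 := by linarith
  have hδ00 : 0 < ρ ^ 2 * (1 - r) / 960 := by positivity
  have hδ01 : ρ ^ 2 * (1 - r) / 960 ≤ 1 := by
    have : ρ ^ 2 ≤ 1 := pow_le_one₀ hρ0.le hρ1
    nlinarith
  -- large `m`
  have hc1 : 0 < ρ * ((1 - κ) / 4 * K) := by positivity
  have hc2 : 0 < ρ ^ 2 / 96 := by positivity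
  have hlim1 : Tendsto (fun m : ℕ => Real.exp (-(ρ * ((1 - κ) / 4 * K) * √(m : ℝ)))) atTop (𝓝 0) :=
    Real.tendsto_exp_neg_atTop_nhds_zero.comp
      ((Real.tendsto_sqrt_atTop.comp tendsto_natCast_atTop_atTop).const_mul_atTop hc1)
  have hlim2 : Tendsto (fun m : ℕ => Real.exp (-(ρ ^ 2 / 96 * (m : ℝ)))) atTop (𝓝 0) :=
    Real.tendsto_exp_neg_atTop_nhds_zero.comp
      (tendsto_natCast_atTop_atTop.const_mul_atTop hc2)
  have hp1 : 0 < (1 - κ) ^ 2 / 16 := by positivity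
  have hp2 : 0 < (1 - κ) / 6 := by positivity
  obtain ⟨N, hN⟩ := eventually_atTop.1 ((hlim1.eventually (gt_mem_nhds hp1)).and
    (hlim2.eventually (gt_mem_nhds hp2)))
  refine ⟨K, hK0, (ρ ^ 2 * (1 - r) / 960) ^ 2, by positivity, pow_le_one₀ hδ00.le hδ01, N + 1,
    fun m l δ hm hδ hδ1 hl hb hEP hKs hY1 hY2 => ?_⟩
  rw [← hL] at hb hKs hY1 hY2
  obtain ⟨hN1, hN2⟩ := hN m (by omega)
  have hm1 : 1 ≤ m := by omega
  have hm0 : (0 : ℝ) < m := by exact_mod_cast hm1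
  have hsm : √(m : ℝ) ^ 2 = m := Real.sq_sqrt hm0.le
  have hsm0 : 0 < √(m : ℝ) := Real.sqrt_pos.2 hm0
  -- the mean
  have hS1 : ‖sR L l‖ ≤ 1 := c2b_sR_le hm1 L l hl
  have hbB0 : 0 ≤ bB L l := by
    unfold bB
    exact div_nonneg (Finset.sum_nonneg fun _ _ => norm_nonneg _) hm0.le
  have hsre : 0 ≤ (sR L l).re := by
    by_contra hcon
    rw [not_le] at hcon
    have := mul_neg_of_pos_of_neg hκ hcon
    linarith
  obtain ⟨ω, hω, hω1, hω2, hω3⟩ := c2b_rot (sR L l) (yR L l) hsre hY1 hY2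
  obtain ⟨S, hS⟩ : ∃ S : ℝ, S = ‖sR L l‖ := ⟨_, rfl⟩
  rw [← hS] at hS1 hω1 hKs
  have hS0 : 0 < S := by
    by_contra hcon
    rw [not_lt] at hcon
    have := mul_nonpos_of_nonneg_of_nonpos hsm0.le hcon
    linarith
  obtain ⟨x, hx⟩ : ∃ x : ℝ, x = (ω * sR L l).re := ⟨_, rfl⟩
  rw [← hx] at hω1 hω2
  have hx0 : 0 < x := by linarith
  have hsR := c2b_sR L l hω
  have hbB := c2b_bB L l hω
  have hyR := c2b_yR L l hω
  have hnS : ‖sR L (fun k => ω * l k)‖ = S := by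
    rw [hsR, norm_mul, hω, one_mul, hS]
  have hreS : (sR L (fun k => ω * l k)).re = x := by rw [hsR, hx]
  -- the pointwise bounds
  have hPT := fun (τ : ℝ) (hτ0 : 0 ≤ τ) (hτ1 : τ ≤ ρ) =>
    (h1 m (fun k => ω * l k) (Finset.univ.filter (fun k => ¬ L < ‖ω * l k‖)) L κ τ hm1
      (by linarith) hκ.le hκ1.le hτ0 (fun k hk => not_lt.1 (Finset.mem_filter.1 hk).2) (by
        refine le_trans (Finset.sum_le_sum_of_subset_of_nonneg (Finset.filter_subset _ _)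
          fun _ _ _ => norm_nonneg _) (le_trans (le_of_eq ?_) hl)
        exact Finset.sum_congr rfl fun k _ => by rw [norm_mul, hω, one_mul])
      ((mul_le_mul_of_nonneg_right hτ1 hL0.le).trans hρL) (by
        have h5 : 0 ≤ (sR L (fun k => ω * l k)).re := by
          rw [hreS]
          exact hx0.le
        exact h5)).2 (by
        have h5 : 1 / 12 ≤ (yR L (fun k => ω * l k)).re := by
          rw [hyR]
          exact hω3
        exact h5) (by rw [← hρ]; exact hτ1)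
  -- the lower bound
  have hLB := h2 m (fun k => ω * l k) L κ ρ hm1 (by linarith) hκ.le hκ1 hρ0
    (by rw [hnS]; exact hS1) (by rw [hreS]; exact hx0) (by
      rw [hbB, hreS]
      exact hb.trans (mul_le_mul_of_nonneg_left hω2 hκ.le))
    (fun τ hτ0 hτ1 => (hPT τ hτ0 hτ1).1)
  rw [hnS, hreS] at hLB
  -- estimates
  obtain ⟨ν, hν⟩ : ∃ ν : ℝ, ν = (1 - κ) / 2 * x := ⟨_, rfl⟩
  rw [← hν] at hLB
  have hν1 : (1 - κ) / 4 * S ≤ ν := by
    rw [hν]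
    nlinarith
  have hν00 : 0 < (1 - κ) / 4 * S := by positivity
  have hν0 : 0 < ν := lt_of_lt_of_le hν00 hν1
  have hmS : 512 * L ≤ (1 - κ) ^ 4 * (m * S ^ 2) := by
    have h5 : K ^ 2 ≤ (√(m : ℝ) * S) ^ 2 := pow_le_pow_left₀ hK0.le hKs 2
    rw [hK2, mul_pow, hsm, div_le_iff₀ (by positivity)] at h5
    linarith
  have hA2 : 2 * L / (m * ν ^ 3) ≤ (1 - κ) / (4 * S) := by
    rw [div_le_div_iff₀ (by positivity) (by positivity)]
    have h5 : ((1 - κ) / 4 * S) ^ 3 ≤ ν ^ 3 := pow_le_pow_left₀ hν00.le hν1 3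
    have h6 : (1 - κ) * (m * ((1 - κ) / 4 * S) ^ 3) ≤ (1 - κ) * (m * ν ^ 3) :=
      mul_le_mul_of_nonneg_left (mul_le_mul_of_nonneg_left h5 hm0.le) h1κ.le
    refine le_trans ?_ h6
    have h7 : (1 - κ) * (m * ((1 - κ) / 4 * S) ^ 3) = ((1 - κ) ^ 4 * (m * S ^ 2)) * (S / 64) := by
      ring
    rw [h7]
    have h8 := mul_le_mul_of_nonneg_right hmS (by positivity : 0 ≤ S / 64)
    refine le_trans (le_of_eq ?_) h8
    ring
  have hA3 : 1 / ν * Real.exp (-(m * ρ * ν)) ≤ (1 - κ) / (4 * S) := by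
    have h5 : 1 / ν ≤ 1 / ((1 - κ) / 4 * S) := one_div_le_one_div_of_le hν00 hν1
    have h6 : Real.exp (-(m * ρ * ν)) ≤ (1 - κ) ^ 2 / 16 := by
      refine le_trans (Real.exp_le_exp.2 (neg_le_neg ?_)) hN1.le
      have h7 : √(m : ℝ) * K ≤ m * S := by
        have h8 := mul_le_mul_of_nonneg_left hKs hsm0.le
        calc √(m : ℝ) * K ≤ √(m : ℝ) * (√(m : ℝ) * S) := h8
          _ = √(m : ℝ) ^ 2 * S := by ring
          _ = m * S := by rw [hsm]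
      have h9 : m * ρ * ((1 - κ) / 4 * S) ≤ m * ρ * ν :=
        mul_le_mul_of_nonneg_left hν1 (by positivity)
      refine le_trans ?_ h9
      have h10 := mul_le_mul_of_nonneg_left h7 (by positivity : 0 ≤ ρ * ((1 - κ) / 4))
      calc ρ * ((1 - κ) / 4 * K) * √(m : ℝ) = ρ * ((1 - κ) / 4) * (√(m : ℝ) * K) := by ring
        _ ≤ ρ * ((1 - κ) / 4) * (m * S) := h10
        _ = _ := by ring
    calc 1 / ν * Real.exp (-(m * ρ * ν)) ≤ 1 / ((1 - κ) / 4 * S) * ((1 - κ) ^ 2 / 16) :=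
          mul_le_mul h5 h6 (Real.exp_pos _).le (by positivity)
      _ = (1 - κ) / (4 * S) := by
          field_simp
          norm_num
  have hlow : (1 - κ) / 2 ≤ m * ‖∫ τ in (0:ℝ)..ρ, ∏ k, (1 - (τ : ℂ) * (ω * l k))‖ := by
    refine le_trans ?_ hLB
    have h5 : (1 - κ) / S = 4 * ((1 - κ) / (4 * S)) := by
      field_simp
    have h6 : (1 - κ) / 2 ≤ 2 * ((1 - κ) / (4 * S)) := by
      have h7 : 2 * ((1 - κ) / (4 * S)) = (1 - κ) / 2 / S := by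
        field_simp
        norm_num
      rw [h7, le_div_iff₀ hS0]
      nlinarith
    rw [h5]
    linarith
  -- the upper bound
  have hup := hEP ω ρ hω hρ0 hρr
  rw [← hL, ← c2b_fil L l hω] at hup
  have hprod : ∏ k ∈ Finset.univ.filter (fun k => ¬ L < ‖ω * l k‖), ‖1 - (ρ : ℂ) * (ω * l k)‖ ≤
      Real.exp (-(m * ρ ^ 2 / 48)) := by
    have h5 := (hPT ρ hρ0.le le_rfl).2
    rwa [norm_prod] at h5
  have hsq : Real.sqrt δ ≤ ρ ^ 2 * (1 - r) / 960 := by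
    rw [← Real.sqrt_sq hδ00.le]
    exact Real.sqrt_le_sqrt hδ1
  have hsq2 : 10 / (1 - r) * Real.sqrt δ ≤ ρ ^ 2 / 96 := by
    calc 10 / (1 - r) * Real.sqrt δ ≤ 10 / (1 - r) * (ρ ^ 2 * (1 - r) / 960) :=
          mul_le_mul_of_nonneg_left hsq (by positivity)
      _ = ρ ^ 2 / 96 := by
          field_simp
          norm_num
  have hfin : m * ‖∫ τ in (0:ℝ)..ρ, ∏ k, (1 - (τ : ℂ) * (ω * l k))‖ ≤
      3 * Real.exp (-(ρ ^ 2 / 96 * (m : ℝ))) := by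
    have h5 : 3 / ((m : ℝ) + 1) * Real.exp (m * (10 / (1 - r) * Real.sqrt δ)) *
        ∏ k ∈ Finset.univ.filter (fun k => ¬ L < ‖ω * l k‖), ‖1 - (ρ : ℂ) * (ω * l k)‖ ≤
        3 / ((m : ℝ) + 1) * Real.exp (m * (10 / (1 - r) * Real.sqrt δ)) *
          Real.exp (-(m * ρ ^ 2 / 48)) :=
      mul_le_mul_of_nonneg_left hprod (by positivity)
    have h6 : Real.exp (m * (10 / (1 - r) * Real.sqrt δ)) * Real.exp (-(m * ρ ^ 2 / 48)) ≤
        Real.exp (-(ρ ^ 2 / 96 * (m : ℝ))) := by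
      rw [← Real.exp_add]
      refine Real.exp_le_exp.2 ?_
      have h7 := mul_le_mul_of_nonneg_left hsq2 hm0.le
      linarith
    have h8 : m * (3 / ((m : ℝ) + 1)) ≤ 3 := by
      rw [mul_div_assoc', div_le_iff₀ (by positivity)]
      linarith
    calc m * ‖∫ τ in (0:ℝ)..ρ, ∏ k, (1 - (τ : ℂ) * (ω * l k))‖ ≤
          m * (3 / ((m : ℝ) + 1) * Real.exp (m * (10 / (1 - r) * Real.sqrt δ)) *
          Real.exp (-(m * ρ ^ 2 / 48))) := mul_le_mul_of_nonneg_left (hup.trans h5) hm0.le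
      _ = (m * (3 / ((m : ℝ) + 1))) * (Real.exp (m * (10 / (1 - r) * Real.sqrt δ)) *
          Real.exp (-(m * ρ ^ 2 / 48))) := by ring
      _ ≤ 3 * Real.exp (-(ρ ^ 2 / 96 * (m : ℝ))) :=
          mul_le_mul h8 h6 (by positivity) (by norm_num)
  linarith

end Pool.Agent.H788.BV
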